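import Mathlib
import Pool.Agent.Helper75.WormaldFinal

set_option autoImplicit false

namespace Pool.Agent.Results.MP_3d7035_co.Counterexample

open Pool.Agent.Helper75.WormaldGraph Pool.Agent.Helper75.WormaldFinal

/-- There is a connected cubic graph on 34 vertices (and 34 is congruent to 2 modulo 4)
without a strong Wormald bisection.  The graph consists of a centre joined to the roots of three
copies of an 11-vertex piece. -/
theorem result :
    ∃ (V : Type) (_ : Fintype V) (G : SimpleGraph V),
      Fintype.card V = 34 ∧ (∀ v, (G.neighborSet v).ncard = 3) ∧ G.Connected ∧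
        ¬ ∃ A : Set V, IsStrongWormaldBisection G A :=
  ⟨Option (Fin 3 × Fin 11), inferInstance, G34, by decide, G34_cubic, G34_connected,
    fun ⟨A, hA⟩ => no_bisection A hA⟩

end Pool.Agent.Results.MP_3d7035_co.Counterexample
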